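import Mathlib

set_option autoImplicit false

namespace Pool.Agent.H23.Chung

open SimpleGraph

variable {V : Type*}

/-- the walk version of `no two internally disjoint short v-w paths` -/
def NoTwo (G : SimpleGraph V) (d : ℕ) (v w : V) : Prop :=
  ∀ p q : G.Walk v w, p.length ≤ d → q.length ≤ d →
    ∃ x, x ≠ v ∧ x ≠ w ∧ x ∈ p.support ∧ x ∈ q.support

/-- the graph `G` with the vertex `x` isolated -/
def del (G : SimpleGraph V) (x : V) : SimpleGraph V where
  Adj a b := G.Adj a b ∧ a ≠ x ∧ b ≠ x
  symm := ⟨fun _ _ h => ⟨h.1.symm, h.2.2, h.2.1⟩⟩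
  loopless := ⟨fun _ h => G.irrefl h.1⟩

theorem del_le (G : SimpleGraph V) (x : V) : del G x ≤ G := fun _ _ h => h.1

theorem not_mem_of_del {G : SimpleGraph V} {x : V} {a b : V} (p : (del G x).Walk a b)
    (ha : a ≠ x) : x ∉ p.support := by
  induction p with
  | nil => simpa using fun h => ha h.symm
  | cons hadj p ih =>
    simp only [Walk.support_cons, List.mem_cons, not_or]
    exact ⟨fun h => ha h.symm, ih hadj.2.2⟩

theorem to_del {G : SimpleGraph V} {x : V} {a b : V} (p : G.Walk a b)
    (hx : x ∉ p.support) :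
    ∃ q : (del G x).Walk a b, q.length = p.length ∧ q.support = p.support := by
  induction p with
  | nil => exact ⟨.nil, rfl, rfl⟩
  | cons hadj p ih =>
    simp only [Walk.support_cons, List.mem_cons, not_or] at hx
    obtain ⟨q, hq1, hq2⟩ := ih hx.2
    rename_i u' v' w'
    have hA : (del G x).Adj u' v' := by
      refine ⟨hadj, fun h => hx.1 h.symm, ?_⟩
      intro h
      apply hx.2
      rw [← h]
      exact p.start_mem_support
    exact ⟨.cons hA q, by simp [hq1], by simp [hq2]⟩

theorem of_del {G : SimpleGraph V} {x : V} {a b : V} (p : (del G x).Walk a b) (ha : a ≠ x) :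
    ∃ q : G.Walk a b, q.length = p.length ∧ q.support = p.support ∧ x ∉ q.support := by
  refine ⟨p.mapLe (del_le G x), by simp, by simp, ?_⟩
  simpa using not_mem_of_del p ha

theorem first_hit {G : SimpleGraph V} (T : V → Prop) {v w : V} (P : G.Walk v w)
    (h : ∃ x ∈ P.support, T x) :
    ∃ (x : V) (a : G.Walk v x) (b : G.Walk x w), P = a.append b ∧ T x ∧
      ∀ z ∈ a.support, T z → z = x := by
  classical
  induction P with
  | nil =>
    obtain ⟨x, hx, hT⟩ := h
    simp only [Walk.support_nil, List.mem_singleton] at hx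
    subst hx
    exact ⟨_, .nil, .nil, rfl, hT, by simp⟩
  | @cons u v' w' hadj p ih =>
    by_cases hu : T u
    · exact ⟨u, .nil, .cons hadj p, rfl, hu, by simp⟩
    · obtain ⟨x, hx, hT⟩ := h
      have : ∃ x ∈ p.support, T x := by
        refine ⟨x, ?_, hT⟩
        simp only [Walk.support_cons, List.mem_cons] at hx
        rcases hx with rfl | hx
        · exact absurd hT hu
        · exact hx
      obtain ⟨x, a, b, rfl, hx, ha⟩ := ih this
      refine ⟨x, .cons hadj a, b, rfl, hx, ?_⟩
      intro z hz hTz
      simp only [Walk.support_cons, List.mem_cons] at hz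
      rcases hz with rfl | hz
      · exact absurd hTz hu
      · exact ha z hz hTz

theorem split {G : SimpleGraph V} {v w x : V} (P : G.Walk v w) (h : x ∈ P.support) :
    ∃ (a : G.Walk v x) (b : G.Walk x w), P = a.append b :=
  (Walk.mem_support_iff_exists_append).1 h

theorem pos_of_ne {G : SimpleGraph V} {a b : V} (p : G.Walk a b) (h : a ≠ b) : 1 ≤ p.length := by
  cases p with
  | nil => exact absurd rfl h
  | cons _ _ => simp

theorem eq_of_length_zero {G : SimpleGraph V} {a b : V} (p : G.Walk a b) (h : p.length = 0) :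
    a = b := by
  cases p with
  | nil => rfl
  | cons _ _ => simp at h

/-- the crossing lemma -/
theorem crossing {G : SimpleGraph V} {d : ℕ} {v w y : V} (hN : NoTwo G d v w)
    (D : G.Walk v y) (R1 R2 : G.Walk y w) (P : G.Walk v w)
    (hR1 : R1.IsPath) (hR2 : R2.IsPath)
    (hl1 : D.length + R1.length ≤ d) (hl2 : D.length + R2.length ≤ d)
    (hP : P.length ≤ d)
    (hRR : ∀ x, x ∈ R1.support → x ∈ R2.support → x = y ∨ x = w)
    (hRD1 : ∀ x, x ∈ R1.support → x ∈ D.support → x = y)
    (hRD2 : ∀ x, x ∈ R2.support → x ∈ D.support → x = y)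
    (hPD : ∀ x, x ∈ P.support → x ∈ D.support → x = v)
    (hyv : y ≠ v)
    (hpos1 : ∀ x (a : G.Walk v x) (b : G.Walk x w), P = a.append b →
      ∀ (a' : G.Walk y x) (b' : G.Walk x w), R1 = a'.append b' → x ≠ y → x ≠ w →
        a.length ≤ D.length + a'.length)
    (hpos2 : ∀ x (a : G.Walk v x) (b : G.Walk x w), P = a.append b →
      ∀ (a' : G.Walk y x) (b' : G.Walk x w), R2 = a'.append b' → x ≠ y → x ≠ w →
        a.length ≤ D.length + a'.length) : False := by
  have hyP : y ∉ P.support := fun h => hyv (hPD y h D.end_mem_support)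
  -- a general step
  have key : ∀ (S1 S2 : G.Walk y w), S1.IsPath →
      D.length + S1.length ≤ d → D.length + S2.length ≤ d →
      (∀ x, x ∈ S1.support → x ∈ S2.support → x = y ∨ x = w) →
      (∀ x, x ∈ S1.support → x ∈ D.support → x = y) →
      (∀ x (a : G.Walk v x) (b : G.Walk x w), P = a.append b →
        ∀ (a' : G.Walk y x) (b' : G.Walk x w), S1 = a'.append b' → x ≠ y → x ≠ w →
          a.length ≤ D.length + a'.length) →
      ∀ (p : V) (a : G.Walk v p) (b : G.Walk p w), P = a.append b → p ≠ w → p ∈ S1.support →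
        (∀ z ∈ a.support, z ∈ S2.support → z ≠ w → z = p) →
        False := by
    intro S1 S2 hS1 hl1 hl2 hSS hSD hpos p a b hab hpw hpS hfirst
    have hpP : p ∈ P.support := by
      rw [hab]; simp
    have hpy : p ≠ y := fun h => hyP (h ▸ hpP)
    obtain ⟨a', b', hab'⟩ := split S1 hpS
    have hlen := hpos p a b hab a' b' hab' hpy hpw
    have hyb' : y ∉ b'.support := by
      intro hyb
      rw [hab'] at hS1
      have hnd := hS1.support_nodup
      rw [Walk.support_append] at hnd
      have hdis := (List.nodup_append.1 hnd).2.2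
      have h1 : y ∈ a'.support := a'.start_mem_support
      have h2 : y ∈ b'.support.tail := by
        cases b' with
        | nil =>
          simp at hyb
          exact absurd hyb.symm hpy
        | cons hb b'' =>
          simp only [Walk.support_cons, List.mem_cons] at hyb
          rcases hyb with h | h
          · exact absurd h.symm hpy
          · simpa using h
      exact hdis y h1 y h2 rfl
    have e1 : (a.append b').length ≤ d := by
      have := congrArg Walk.length hab'
      simp only [Walk.length_append] at this ⊢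
      omega
    have e2 : (D.append S2).length ≤ d := by
      simp only [Walk.length_append]; omega
    obtain ⟨x, hxv, hxw, hx1, hx2⟩ := hN _ _ e1 e2
    rw [Walk.mem_support_append_iff] at hx1 hx2
    rcases hx1 with hx1 | hx1
    · have hxP : x ∈ P.support := by
        rw [hab, Walk.mem_support_append_iff]; exact Or.inl hx1
      rcases hx2 with hx2 | hx2
      · exact hxv (hPD x hxP hx2)
      · have := hfirst x hx1 hx2 hxw
        subst this
        rcases hSS x hpS hx2 with h | h
        · exact hpy h
        · exact hxw h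
    · have hxS : x ∈ S1.support := by
        rw [hab', Walk.mem_support_append_iff]; exact Or.inr hx1
      have hxy : x ≠ y := fun h => hyb' (h ▸ hx1)
      rcases hx2 with hx2 | hx2
      · exact hxy (hSD x hxS hx2)
      · rcases hSS x hxS hx2 with h | h
        · exact hxy h
        · exact hxw h
  -- P hits R1
  have e2 : (D.append R1).length ≤ d := by
    simp only [Walk.length_append]; omega
  obtain ⟨x, hxv, hxw, hx1, hx2⟩ := hN _ _ hP e2
  rw [Walk.mem_support_append_iff] at hx2
  have hx2' : x ∈ R1.support := by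
    rcases hx2 with h | h
    · exact absurd (hPD x hx1 h) hxv
    · exact h
  obtain ⟨p, a, b, hab, hT, hfirst⟩ := first_hit
    (fun z => (z ∈ R1.support ∨ z ∈ R2.support) ∧ z ≠ w) P ⟨x, hx1, Or.inl hx2', hxw⟩
  rcases hT.1 with h | h
  · exact key R1 R2 hR1 hl1 hl2 hRR hRD1 hpos1 p a b hab hT.2 h
      (fun z hz hz2 hzw => hfirst z hz ⟨Or.inr hz2, hzw⟩)
  · exact key R2 R1 hR2 hl2 hl1 (fun x h1 h2 => hRR x h2 h1) hRD2 hpos2 p a b hab hT.2 h
      (fun z hz hz2 hzw => hfirst z hz ⟨Or.inl hz2, hzw⟩)

/-- a fan at `y`, at level `j` -/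
def Fan (G : SimpleGraph V) (v w : V) (d j : ℕ) (y : V) : Prop :=
  ∃ (D : G.Walk v y) (R1 R2 : G.Walk y w), D.length = j ∧ (∀ q : G.Walk v y, j ≤ q.length) ∧
    R1.IsPath ∧ R2.IsPath ∧ j + R1.length ≤ d ∧ j + R2.length ≤ d ∧
    (∀ x, x ∈ R1.support → x ∈ R2.support → x = y ∨ x = w) ∧
    (∀ x, x ∈ R1.support → x ≠ y → ∀ q : G.Walk v x, j < q.length) ∧
    (∀ x, x ∈ R2.support → x ≠ y → ∀ q : G.Walk v x, j < q.length)

/-- `x` has distance at least `k` from `v` -/
def Far (G : SimpleGraph V) (v : V) (k : ℕ) (x : V) : Prop := ∀ q : G.Walk v x, k ≤ q.length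

/-- `x` has distance exactly `k` from `v` -/
def At (G : SimpleGraph V) (v : V) (k : ℕ) (x : V) : Prop :=
  Far G v k x ∧ ∃ q : G.Walk v x, q.length = k

theorem not_far_self (G : SimpleGraph V) (v : V) (k : ℕ) : ¬ Far G v (k + 1) v := by
  intro h
  have := h .nil
  simp at this

/-- the ball of radius `r` around `v` contracted into `v` -/
def con (G : SimpleGraph V) (v : V) (r : ℕ) : SimpleGraph V where
  Adj a b := (a = v ∧ At G v (r + 1) b) ∨ (b = v ∧ At G v (r + 1) a) ∨
    (G.Adj a b ∧ Far G v (r + 1) a ∧ Far G v (r + 1) b)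
  symm := ⟨by
    rintro a b (h | h | h)
    · exact Or.inr (Or.inl h)
    · exact Or.inl h
    · exact Or.inr (Or.inr ⟨h.1.symm, h.2.2, h.2.1⟩)⟩
  loopless := ⟨by
    rintro a (h | h | h)
    · obtain ⟨rfl, h⟩ := h
      exact not_far_self G a r h.1
    · obtain ⟨rfl, h⟩ := h
      exact not_far_self G a r h.1
    · exact G.irrefl h.1⟩

theorem con_walk_aux {G : SimpleGraph V} {v w : V} {r : ℕ} (hw : Far G v (r + 1) w)
    {x : V} (p : (con G v r).Walk x w) :
    (∃ Q : G.Walk x w, Q.length = p.length ∧ (∀ z ∈ Q.support, z ∈ p.support) ∧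
      ∀ z ∈ Q.support, Far G v (r + 1) z) ∨
    (∃ (q : V) (Q : G.Walk q w), At G v (r + 1) q ∧ Q.length + 1 ≤ p.length ∧
      (∀ z ∈ Q.support, z ∈ p.support) ∧ ∀ z ∈ Q.support, Far G v (r + 1) z) := by
  induction p with
  | nil =>
    left
    refine ⟨.nil, rfl, by simp, ?_⟩
    intro z hz
    simp only [Walk.support_nil, List.mem_singleton] at hz
    subst hz
    exact hw
  | @cons a b c hadj p ih =>
    rcases ih hw with ⟨Q, h1, h2, h3⟩ | ⟨q, Q, h0, h1, h2, h3⟩
    · have hadj' := hadj
      rcases hadj' with h | h | h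
      · right
        refine ⟨b, Q, h.2, by simp [h1], ?_, h3⟩
        intro z hz
        simp only [Walk.support_cons, List.mem_cons]
        exact Or.inr (h2 z hz)
      · exfalso
        obtain ⟨rfl, h⟩ := h
        exact not_far_self G b r (h3 b Q.start_mem_support)
      · left
        refine ⟨.cons h.1 Q, by simp [h1], ?_, ?_⟩
        · intro z hz
          simp only [Walk.support_cons, List.mem_cons] at hz ⊢
          rcases hz with h | h
          · exact Or.inl h
          · exact Or.inr (h2 z h)
        · intro z hz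
          simp only [Walk.support_cons, List.mem_cons] at hz
          rcases hz with rfl | hz
          · exact h.2.1
          · exact h3 z hz
    · right
      refine ⟨q, Q, h0, by simp; omega, ?_, h3⟩
      intro z hz
      simp only [Walk.support_cons, List.mem_cons]
      exact Or.inr (h2 z hz)

theorem con_walk {G : SimpleGraph V} {v w : V} {r : ℕ} (hw : Far G v (r + 1) w)
    (p : (con G v r).Walk v w) :
    (∃ (q : V) (Q : G.Walk q w), At G v (r + 1) q ∧ Q.length + 1 ≤ p.length ∧
      (∀ z ∈ Q.support, z ∈ p.support) ∧ ∀ z ∈ Q.support, Far G v (r + 1) z) := by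
  rcases con_walk_aux hw p with ⟨Q, h1, h2, h3⟩ | h
  · exact absurd (h3 v Q.start_mem_support) (not_far_self G v r)
  · exact h

theorem of_walk_aux {G : SimpleGraph V} {v w : V} {r : ℕ} (hw : Far G v (r + 1) w)
    {x : V} (p : G.Walk x w) :
    (∃ Q : (con G v r).Walk x w, Q.length = p.length ∧ (∀ z ∈ Q.support, z ∈ p.support) ∧
      Far G v (r + 1) x) ∨
    (∃ (q : V) (a : G.Walk x q) (Q : (con G v r).Walk q w), At G v (r + 1) q ∧
      a.length + Q.length = p.length ∧ (∀ z ∈ Q.support, z ∈ p.support)) := by
  induction p with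
  | nil =>
    left
    exact ⟨.nil, rfl, by simp, hw⟩
  | @cons a b c hadj p ih =>
    rcases ih hw with ⟨Q, h1, h2, h3⟩ | ⟨q, a', Q, h0, h1, h2⟩
    · by_cases ha : Far G v (r + 1) a
      · left
        have hA : (con G v r).Adj a b := Or.inr (Or.inr ⟨hadj, ha, h3⟩)
        refine ⟨.cons hA Q, by simp [h1], ?_, ha⟩
        intro z hz
        simp only [Walk.support_cons, List.mem_cons] at hz ⊢
        rcases hz with h | h
        · exact Or.inl h
        · exact Or.inr (h2 z h)
      · right
        have hb : At G v (r + 1) b := by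
          refine ⟨h3, ?_⟩
          unfold Far at ha
          push Not at ha
          obtain ⟨q, hq⟩ := ha
          refine ⟨q.append (.cons hadj .nil), ?_⟩
          have := h3 (q.append (.cons hadj .nil))
          simp at this ⊢
          omega
        refine ⟨b, .cons hadj .nil, Q, hb, by simp [h1]; omega, ?_⟩
        intro z hz
        simp only [Walk.support_cons, List.mem_cons]
        exact Or.inr (h2 z hz)
    · right
      refine ⟨q, .cons hadj a', Q, h0, by simp; omega, ?_⟩
      intro z hz
      simp only [Walk.support_cons, List.mem_cons]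
      exact Or.inr (h2 z hz)

theorem of_walk {G : SimpleGraph V} {v w : V} {r : ℕ} (hw : Far G v (r + 1) w)
    (p : G.Walk v w) :
    ∃ Q : (con G v r).Walk v w, Q.length + r ≤ p.length ∧ ∀ z ∈ Q.support, z ∈ p.support := by
  rcases of_walk_aux hw p with ⟨Q, h1, h2, h3⟩ | ⟨q, a, Q, h0, h1, h2⟩
  · exact absurd h3 (not_far_self G v r)
  · have hA : (con G v r).Adj v q := Or.inl ⟨rfl, h0⟩
    refine ⟨.cons hA Q, ?_, ?_⟩
    · have := h0.1 a
      simp only [Walk.length_cons]
      omega
    · intro z hz
      simp only [Walk.support_cons, List.mem_cons] at hz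
      rcases hz with rfl | hz
      · exact p.start_mem_support
      · exact h2 z hz

end Pool.Agent.H23.Chung
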