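import Mathlib

set_option autoImplicit false

namespace Pool.Agent.H23.Chung

open SimpleGraph

/-- adjacency of the example -/
def exAdj (k r : ℕ) : ((Fin (4 * k + r) × Fin k) ⊕ Fin (2 * k - 1)) →
    ((Fin (4 * k + r) × Fin k) ⊕ Fin (2 * k - 1)) → Prop
  | .inl a, .inl b => a.1.val + 1 = b.1.val ∨ b.1.val + 1 = a.1.val
  | .inl a, .inr p => a.1.val = r + 2 * p.val ∨ a.1.val = r + 2 * p.val + 3
  | .inr p, .inl a => a.1.val = r + 2 * p.val ∨ a.1.val = r + 2 * p.val + 3
  | .inr p, .inr q => p.val + 1 = q.val ∨ q.val + 1 = p.val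

def exG (k r : ℕ) : SimpleGraph ((Fin (4 * k + r) × Fin k) ⊕ Fin (2 * k - 1)) where
  Adj := exAdj k r
  symm := ⟨by
    rintro (a | p) (b | q) h
    · exact h.symm
    · exact h
    · exact h
    · exact h.symm⟩
  loopless := ⟨by
    rintro (a | p) h
    · rcases h with h | h <;> omega
    · rcases h with h | h <;> omega⟩

def pot (k r : ℕ) : ((Fin (4 * k + r) × Fin k) ⊕ Fin (2 * k - 1)) → ℕ
  | .inl a => a.1.val
  | .inr p => r + 2 * p.val + 1

theorem pot_step {k r : ℕ} {x y : (Fin (4 * k + r) × Fin k) ⊕ Fin (2 * k - 1)}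
    (h : (exG k r).Adj x y) : pot k r y ≤ pot k r x + 1 + ([x].filterMap Sum.getRight?).length := by
  rcases x with a | p <;> rcases y with b | q
  · have h' : a.1.val + 1 = b.1.val ∨ b.1.val + 1 = a.1.val := h
    simp [pot]; omega
  · have h' : a.1.val = r + 2 * q.val ∨ a.1.val = r + 2 * q.val + 3 := h
    simp [pot]; omega
  · have h' : b.1.val = r + 2 * p.val ∨ b.1.val = r + 2 * p.val + 3 := h
    simp [pot]; omega
  · have h' : p.val + 1 = q.val ∨ q.val + 1 = p.val := h
    simp [pot]; omega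

theorem pot_walk {k r : ℕ} {x y : (Fin (4 * k + r) × Fin k) ⊕ Fin (2 * k - 1)}
    (q : (exG k r).Walk x y) :
    pot k r y ≤ pot k r x + q.length + (q.support.filterMap Sum.getRight?).length := by
  induction q with
  | nil => simp
  | @cons a b c h p ih =>
    have h1 := pot_step h
    have h2 : (Walk.cons h p).support = [a] ++ p.support := by simp
    rw [h2, List.filterMap_append, List.length_append, Walk.length_cons]
    omega

/-- the indices of the P-vertices on a walk -/
def pset {k r : ℕ} {x y : (Fin (4 * k + r) × Fin k) ⊕ Fin (2 * k - 1)}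
    (q : (exG k r).Walk x y) : Finset (Fin (2 * k - 1)) :=
  (q.support.filterMap Sum.getRight?).toFinset

theorem mem_pset {k r : ℕ} {x y : (Fin (4 * k + r) × Fin k) ⊕ Fin (2 * k - 1)}
    (q : (exG k r).Walk x y) (p : Fin (2 * k - 1)) : p ∈ pset q ↔ Sum.inr p ∈ q.support := by
  unfold pset
  rw [List.mem_toFinset, List.mem_filterMap]
  constructor
  · rintro ⟨a, ha, h⟩
    rw [Sum.getRight?_eq_some_iff] at h
    rw [← h]; exact ha
  · intro h
    exact ⟨_, h, rfl⟩

theorem pset_card {k r : ℕ} {x y : (Fin (4 * k + r) × Fin k) ⊕ Fin (2 * k - 1)}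
    (q : (exG k r).Walk x y) (hq : q.IsPath) :
    (pset q).card = (q.support.filterMap Sum.getRight?).length := by
  unfold pset
  apply List.toFinset_card_of_nodup
  apply List.Nodup.filterMap _ hq.support_nodup
  intro a a' b hb hb'
  simp only [Option.mem_def, Sum.getRight?_eq_some_iff] at hb hb'
  rw [hb, hb']

/-- steps avoiding a set -/
def Rch {V : Type*} (G : SimpleGraph V) (S : Finset V) (v x : V) (n : ℕ) : Prop :=
  ∃ q : G.Walk v x, q.length = n ∧ ∀ z ∈ q.support, z ∉ S

theorem Rch.step {V : Type*} {G : SimpleGraph V} {S : Finset V} {v x y : V} {n : ℕ}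
    (h : Rch G S v x n) (ha : G.Adj x y) (hy : y ∉ S) : Rch G S v y (n + 1) := by
  obtain ⟨q, h1, h2⟩ := h
  refine ⟨q.append (.cons ha .nil), by simp [h1], ?_⟩
  intro z hz
  rw [Walk.mem_support_append_iff] at hz
  rcases hz with hz | hz
  · exact h2 z hz
  · simp at hz
    rcases hz with rfl | rfl
    · exact h2 _ q.end_mem_support
    · exact hy

theorem ex_hit {k r : ℕ} (hk : 1 ≤ k) (S : Finset ((Fin (4 * k + r) × Fin k) ⊕ Fin (2 * k - 1)))
    (hv : Sum.inl (⟨0, by omega⟩, ⟨0, by omega⟩) ∉ S)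
    (hw : Sum.inl (⟨4 * k - 1 + r, by omega⟩, ⟨0, by omega⟩) ∉ S)
    (hS : S.card < k) :
    ∃ q : (exG k r).Walk (Sum.inl (⟨0, by omega⟩, ⟨0, by omega⟩))
      (Sum.inl (⟨4 * k - 1 + r, by omega⟩, ⟨0, by omega⟩)),
      q.length ≤ 3 * k - 1 + r ∧ ∀ z ∈ q.support, z ∉ S := by
  classical
  -- choice of copies
  have hex : ∀ i : ℕ, ∀ hi : i < 4 * k + r, ∃ c : Fin k,
      (Sum.inl (⟨i, hi⟩, c) : (Fin (4 * k + r) × Fin k) ⊕ Fin (2 * k - 1)) ∉ S := by
    intro i hi
    by_contra hcon
    push Not at hcon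
    have : (Finset.univ.image (fun c : Fin k =>
        (Sum.inl (⟨i, hi⟩, c) : (Fin (4 * k + r) × Fin k) ⊕ Fin (2 * k - 1)))) ⊆ S := by
      intro z hz
      rw [Finset.mem_image] at hz
      obtain ⟨c, _, rfl⟩ := hz
      exact hcon c
    have h2 := Finset.card_le_card this
    rw [Finset.card_image_of_injective] at h2
    · simp at h2
      omega
    · intro c c' h
      simpa using h
  let c : ∀ i : ℕ, i < 4 * k + r → Fin k := fun i hi =>
    if i = 0 ∨ i = 4 * k - 1 + r then ⟨0, by omega⟩ else (hex i hi).choose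
  have hc : ∀ i (hi : i < 4 * k + r),
      (Sum.inl (⟨i, hi⟩, c i hi) : (Fin (4 * k + r) × Fin k) ⊕ Fin (2 * k - 1)) ∉ S := by
    intro i hi
    by_cases h : i = 0 ∨ i = 4 * k - 1 + r
    · simp only [c, if_pos h]
      rcases h with rfl | rfl
      · exact hv
      · exact hw
    · simp only [c, if_neg h]
      exact (hex i hi).choose_spec
  set v : (Fin (4 * k + r) × Fin k) ⊕ Fin (2 * k - 1) :=
    Sum.inl (⟨0, by omega⟩, ⟨0, by omega⟩) with hvdef
  let z : ∀ i : ℕ, i < 4 * k + r → (Fin (4 * k + r) × Fin k) ⊕ Fin (2 * k - 1) :=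
    fun i hi => Sum.inl (⟨i, hi⟩, c i hi)
  have hz0 : z 0 (by omega) = v := by simp [z, c, hvdef]
  have hzL : z (4 * k - 1 + r) (by omega) =
      Sum.inl (⟨4 * k - 1 + r, by omega⟩, ⟨0, by omega⟩) := by simp [z, c]
  have zadj : ∀ i (hi : i + 1 < 4 * k + r), (exG k r).Adj (z i (by omega)) (z (i + 1) hi) := by
    intro i hi
    exact Or.inl rfl
  have zstep : ∀ i (hi : i + 1 < 4 * k + r) n, Rch (exG k r) S v (z i (by omega)) n →
      Rch (exG k r) S v (z (i + 1) hi) (n + 1) := by
    intro i hi n h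
    exact h.step (zadj i hi) (hc _ _)
  have zz : ∀ i (hi : i < 4 * k + r), Rch (exG k r) S v (z i hi) i := by
    intro i
    induction i with
    | zero =>
      intro hi
      rw [hz0]
      exact ⟨.nil, rfl, by simpa using hv⟩
    | succ i ih =>
      intro hi
      exact zstep i hi i (ih (by omega))
  let bad : ℕ → Prop := fun i => ∃ h : i < 2 * k - 1, Sum.inr ⟨i, h⟩ ∈ S
  let t : ℕ → ℕ := fun p => ((Finset.range p).filter bad).card
  have ht : t (2 * k - 1) ≤ S.card := by
    have : ((Finset.range (2 * k - 1)).filter bad).card ≤ S.card := by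
      apply Finset.card_le_card_of_injOn (fun i => if h : i < 2 * k - 1 then Sum.inr ⟨i, h⟩ else v)
      · intro i hi
        have hi' := Finset.mem_filter.1 (Finset.mem_coe.1 hi)
        obtain ⟨h, hs⟩ := hi'.2
        simp only [dif_pos h]
        exact hs
      · intro i hi j hj hij
        have hi' := Finset.mem_range.1 (Finset.mem_filter.1 (Finset.mem_coe.1 hi)).1
        have hj' := Finset.mem_range.1 (Finset.mem_filter.1 (Finset.mem_coe.1 hj)).1
        simp only [dif_pos hi', dif_pos hj'] at hij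
        simpa using hij
    exact this
  have E : ∀ p (hp : p ≤ 2 * k - 1),
      (Rch (exG k r) S v (z (r + 2 * p) (by omega)) (r + p + t p)) ∨
      (∃ h : 1 ≤ p, Rch (exG k r) S v (Sum.inr ⟨p - 1, by omega⟩) (r + p + t p)) := by
    intro p
    induction p with
    | zero =>
      intro hp
      left
      have : t 0 = 0 := by simp [t]
      rw [this]
      exact zz r (by omega)
    | succ p ih =>
      intro hp
      have hE := ih (by omega)
      by_cases hb : bad p
      · left
        have htp : t (p + 1) = t p + 1 := by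
          simp only [t, Finset.range_add_one, Finset.filter_insert, if_pos hb]
          rw [Finset.card_insert_of_notMem (by simp)]
        rw [htp]
        have e1 : r + (p + 1) + (t p + 1) = r + p + t p + 1 + 1 := by ring
        rw [e1]
        rcases hE with hE | ⟨h1, hE⟩
        · exact zstep (r + 2 * p + 1) (by omega) _ (zstep (r + 2 * p) (by omega) _ hE)
        · refine zstep (r + 2 * p + 1) (by omega) _ ?_
          refine hE.step (y := z (r + 2 * p + 1) (by omega)) ?_ (hc _ _)
          show (r + 2 * p + 1 = r + 2 * (p - 1) ∨ r + 2 * p + 1 = r + 2 * (p - 1) + 3)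
          omega
      · right
        have htp : t (p + 1) = t p := by
          simp only [t, Finset.range_add_one, Finset.filter_insert, if_neg hb]
        have hps : (Sum.inr ⟨p, by omega⟩ : (Fin (4 * k + r) × Fin k) ⊕ Fin (2 * k - 1)) ∉ S := by
          intro h
          exact hb ⟨_, h⟩
        refine ⟨by omega, ?_⟩
        rw [htp]
        have e1 : r + (p + 1) + t p = r + p + t p + 1 := by ring
        rw [e1]
        rcases hE with hE | ⟨h1, hE⟩
        · refine hE.step (y := Sum.inr ⟨p + 1 - 1, by omega⟩) ?_ hps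
          exact Or.inl rfl
        · refine hE.step (y := Sum.inr ⟨p + 1 - 1, by omega⟩) ?_ hps
          left
          show p - 1 + 1 = p + 1 - 1
          omega
  have hend := E (2 * k - 1) le_rfl
  have hfin : Rch (exG k r) S v (z (4 * k - 1 + r) (by omega))
      (r + (2 * k - 1) + t (2 * k - 1) + 1) := by
    rcases hend with h | ⟨h1, h⟩
    · refine h.step ?_ (hc _ _)
      left
      show r + 2 * (2 * k - 1) + 1 = 4 * k - 1 + r
      omega
    · refine h.step ?_ (hc _ _)
      right
      show 4 * k - 1 + r = r + 2 * (2 * k - 1 - 1) + 3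
      omega
  rw [hzL] at hfin
  obtain ⟨q, h1, h2⟩ := hfin
  exact ⟨q, by omega, h2⟩

/-- the lower bound example -/
theorem lower (d : ℕ) (hd : 2 ≤ d) :
    ∃ (V : Type) (_ : Fintype V) (G : SimpleGraph V) (v w : V),
      v ≠ w ∧ ¬ G.Adj v w ∧
      (∃ p : G.Walk v w, p.IsPath ∧ p.length ≤ d) ∧
      (¬ ∃ p q : G.Walk v w, p.IsPath ∧ q.IsPath ∧ p.length ≤ d ∧ q.length ≤ d ∧
        ∀ x, x ∈ p.support → x ∈ q.support → x = v ∨ x = w) ∧
      ∀ S : Finset V, v ∉ S → w ∉ S →
        (∀ p : G.Walk v w, p.IsPath → p.length ≤ d → ∃ x ∈ S, x ∈ p.support) →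
        (d + 1) / 3 ≤ S.card := by
  classical
  obtain ⟨k, r, hr, hdk, hk⟩ : ∃ k r, r < 3 ∧ d = 3 * k - 1 + r ∧ 1 ≤ k :=
    ⟨(d + 1) / 3, (d + 1) % 3, Nat.mod_lt _ (by norm_num), by omega, by omega⟩
  have hdiv : (d + 1) / 3 = k := by omega
  refine ⟨_, inferInstance, exG k r, Sum.inl (⟨0, by omega⟩, ⟨0, by omega⟩),
    Sum.inl (⟨4 * k - 1 + r, by omega⟩, ⟨0, by omega⟩), ?_, ?_, ?_, ?_, ?_⟩
  · intro h
    simp only [Sum.inl.injEq, Prod.mk.injEq, Fin.mk.injEq] at h
    omega
  · intro h
    have h' : 0 + 1 = 4 * k - 1 + r ∨ 4 * k - 1 + r + 1 = 0 := h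
    omega
  · obtain ⟨q, h1, h2⟩ := ex_hit (k := k) (r := r) hk ∅ (by simp) (by simp) (by simp; omega)
    exact ⟨q.bypass, q.bypass_isPath, (q.length_bypass_le_length.trans h1).trans (by omega)⟩
  · rintro ⟨p, q, hp, hq, hpl, hql, hdis⟩
    have h1 := pot_walk p
    have h2 := pot_walk q
    have h3 := pset_card p hp
    have h4 := pset_card q hq
    simp only [pot] at h1 h2
    have hd' : Disjoint (pset p) (pset q) := by
      rw [Finset.disjoint_left]
      intro i hi hj
      rw [mem_pset] at hi hj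
      rcases hdis _ hi hj with h | h <;> simp at h
    have h5 := Finset.card_union_of_disjoint hd'
    have h6 := Finset.card_le_univ (pset p ∪ pset q)
    simp only [Fintype.card_fin] at h6
    omega
  · intro S hv hw hS
    rw [hdiv]
    by_contra hlt
    obtain ⟨q, h1, h2⟩ := ex_hit (k := k) (r := r) hk S hv hw (by omega)
    obtain ⟨x, hx, hx2⟩ := hS q.bypass q.bypass_isPath
      ((q.length_bypass_le_length.trans h1).trans (by omega))
    exact h2 x (q.support_bypass_subset_support hx2) hx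

end Pool.Agent.H23.Chung
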