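import Mathlib
import Pool.Agent.H23.Chung.Basic

set_option autoImplicit false

namespace Pool.Agent.H23.Chung

open SimpleGraph

variable {V : Type*}

theorem NoTwo.ne {G : SimpleGraph V} {d : ℕ} {v w : V} (h : NoTwo G d v w) : v ≠ w := by
  rintro rfl
  obtain ⟨x, h1, h2, h3, h4⟩ := h .nil .nil (by simp) (by simp)
  simp at h3
  exact h1 h3

theorem NoTwo.mono {G H : SimpleGraph V} (hle : H ≤ G) {d : ℕ} {v w : V} (h : NoTwo G d v w) :
    NoTwo H d v w := by
  intro p q hp hq
  obtain ⟨x, h1, h2, h3, h4⟩ := h (p.mapLe hle) (q.mapLe hle) (by simpa using hp) (by simpa using hq)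
  exact ⟨x, h1, h2, by simpa using h3, by simpa using h4⟩

/-- free contraction -/
theorem noTwo_con {G : SimpleGraph V} {d r : ℕ} {v w : V} (hN : NoTwo G (d + r) v w)
    (hw : Far G v (r + 2) w) (hF : ∀ j y, 1 ≤ j → j ≤ r → ¬ Fan G v w (d + r) j y) :
    NoTwo (con G v r) d v w := by
  classical
  intro p q hp hq
  by_contra hcon
  push Not at hcon
  have hw' : Far G v (r + 1) w := fun q => by have := hw q; omega
  obtain ⟨q1, Q1, hA1, hl1, hs1, hf1⟩ := con_walk hw' p
  obtain ⟨q2, Q2, hA2, hl2, hs2, hf2⟩ := con_walk hw' q
  have atw : ∀ z, At G v (r + 1) z → z ≠ w := by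
    rintro z ⟨_, D, hD⟩ rfl
    have := hw D
    omega
  have atv : ∀ z, Far G v (r + 1) z → z ≠ v := by
    rintro z hz rfl
    exact not_far_self G _ _ hz
  have hdis : ∀ z, z ∈ Q1.support → z ∈ Q2.support → z = w := by
    intro z h1 h2
    by_contra hz
    exact hcon z (atv z (hf1 z h1)) hz (hs1 z h1) (hs2 z h2)
  have hq12 : q1 ≠ q2 := by
    rintro rfl
    exact atw q1 hA1 (hdis q1 Q1.start_mem_support Q2.start_mem_support)
  have hq1Q2 : q1 ∉ Q2.support := fun h => atw q1 hA1 (hdis q1 Q1.start_mem_support h)
  have hq2Q1 : q2 ∉ Q1.support := fun h => atw q2 hA2 (hdis q2 h Q2.start_mem_support)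
  obtain ⟨D1, hD1⟩ := hA1.2
  obtain ⟨D2, hD2⟩ := hA2.2
  -- last common vertex
  obtain ⟨y, a, b, hab, hT, hfirst⟩ := first_hit (fun z => z ∈ D2.support) D1.reverse
    ⟨v, by simp, D2.start_mem_support⟩
  obtain ⟨c, e, hce⟩ := split D2 hT
  have hlab : a.length + b.length = r + 1 := by
    have := congrArg Walk.length hab
    simp only [Walk.length_reverse, Walk.length_append] at this
    omega
  have hlce : c.length + e.length = r + 1 := by
    have := congrArg Walk.length hce
    simp only [Walk.length_append] at this
    omega
  have hby : ∀ q : G.Walk v y, b.length ≤ q.length := by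
    intro q
    have := hA1.1 (q.append a.reverse)
    simp only [Walk.length_reverse, Walk.length_append] at this
    omega
  have hcy : ∀ q : G.Walk v y, c.length ≤ q.length := by
    intro q
    have := hA2.1 (q.append e)
    simp only [Walk.length_append] at this
    omega
  have hbc : b.length = c.length := by
    have h1 := hby c
    have h2 := hcy b.reverse
    simp only [Walk.length_reverse] at h2
    omega
  -- levels along the two geodesics
  have hlevA : ∀ x ∈ a.support, x ≠ y → ∀ q : G.Walk v x, b.length < q.length := by
    intro x hx hxy q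
    obtain ⟨f, g, hfg⟩ := split a hx
    have := hA1.1 (q.append f.reverse)
    have h2 := congrArg Walk.length hfg
    have h3 := pos_of_ne g hxy
    simp only [Walk.length_reverse, Walk.length_append] at this h2
    omega
  have hlevE : ∀ x ∈ e.support, x ≠ y → ∀ q : G.Walk v x, b.length < q.length := by
    intro x hx hxy q
    obtain ⟨f, g, hfg⟩ := split e hx
    have := hA2.1 (q.append g)
    have h2 := congrArg Walk.length hfg
    have h3 := pos_of_ne f (Ne.symm hxy)
    simp only [Walk.length_append] at this h2
    omega
  have hfarA : ∀ x ∈ a.support, Far G v (r + 1) x → x = q1 := by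
    intro x hx hf
    obtain ⟨f, g, hfg⟩ := split a hx
    have := hf (b.reverse.append g.reverse)
    have h2 := congrArg Walk.length hfg
    simp only [Walk.length_reverse, Walk.length_append] at this h2
    exact (eq_of_length_zero f (by omega)).symm
  have hfarE : ∀ x ∈ e.support, Far G v (r + 1) x → x = q2 := by
    intro x hx hf
    obtain ⟨f, g, hfg⟩ := split e hx
    have := hf (c.append f)
    have h2 := congrArg Walk.length hfg
    simp only [Walk.length_append] at this h2
    exact (eq_of_length_zero g (by omega))
  have hblt : b.length ≤ r := by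
    by_contra h
    have h1 : a.length = 0 := by omega
    have h2 : e.length = 0 := by omega
    exact hq12 ((eq_of_length_zero a h1).trans (eq_of_length_zero e h2))
  -- common vertices
  have hcommon : ∀ x, x ∈ (a.reverse.append Q1).support → x ∈ (e.append Q2).support →
      x = y ∨ x = w := by
    intro x h1 h2
    rw [Walk.mem_support_append_iff] at h1 h2
    simp only [Walk.support_reverse, List.mem_reverse] at h1
    rcases h1 with h1 | h1
    · rcases h2 with h2 | h2
      · left
        apply hfirst x h1
        show x ∈ D2.support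
        rw [hce, Walk.mem_support_append_iff]
        exact Or.inr h2
      · exfalso
        have := hfarA x h1 (hf2 x h2)
        subst this
        exact hq1Q2 h2
    · rcases h2 with h2 | h2
      · exfalso
        have := hfarE x h2 (hf1 x h1)
        subst this
        exact hq2Q1 h1
      · right
        exact hdis x h1 h2
  by_cases hyv : y = v
  · subst hyv
    obtain ⟨x, hx1, hx2, hx3, hx4⟩ := hN (a.reverse.append Q1) (e.append Q2)
      (by simp only [Walk.length_reverse, Walk.length_append]; omega)
      (by simp only [Walk.length_append]; omega)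
    rcases hcommon x hx3 hx4 with h | h
    · exact hx1 h
    · exact hx2 h
  · refine hF b.length y ?_ hblt ?_
    · exact pos_of_ne b hyv
    · have hB1 : (a.reverse.append Q1).bypass.length ≤ (a.reverse.append Q1).length :=
        Walk.length_bypass_le_length _
      have hB2 : (e.append Q2).bypass.length ≤ (e.append Q2).length :=
        Walk.length_bypass_le_length _
      simp only [Walk.length_reverse, Walk.length_append] at hB1 hB2
      refine ⟨b.reverse, (a.reverse.append Q1).bypass, (e.append Q2).bypass, by simp, hby,
        Walk.bypass_isPath _, Walk.bypass_isPath _, by omega, by omega, ?_, ?_, ?_⟩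
      · intro x h1 h2
        exact hcommon x (Walk.support_bypass_subset_support _ h1)
          (Walk.support_bypass_subset_support _ h2)
      · intro x h1 hxy
        have h1' := Walk.support_bypass_subset_support _ h1
        rw [Walk.mem_support_append_iff] at h1'
        simp only [Walk.support_reverse, List.mem_reverse] at h1'
        rcases h1' with h | h
        · exact hlevA x h hxy
        · intro q
          have := hf1 x h q
          omega
      · intro x h1 hxy
        have h1' := Walk.support_bypass_subset_support _ h1
        rw [Walk.mem_support_append_iff] at h1'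
        rcases h1' with h | h
        · exact hlevE x h hxy
        · intro q
          have := hf2 x h q
          omega

/-- the hitting-set conclusion -/
def Hit (G : SimpleGraph V) (d : ℕ) (v w : V) (k : ℕ) : Prop :=
  ∃ S : Finset V, S.card ≤ k ∧ v ∉ S ∧ w ∉ S ∧
    ∀ p : G.Walk v w, p.length ≤ d → ∃ x ∈ S, x ∈ p.support

theorem hit_con {G : SimpleGraph V} {d r k : ℕ} {v w : V} (hw : Far G v (r + 1) w)
    (h : Hit (con G v r) d v w k) : Hit G (d + r) v w k := by
  obtain ⟨S, h1, h2, h3, h4⟩ := h
  refine ⟨S, h1, h2, h3, ?_⟩
  intro p hp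
  obtain ⟨Q, hQ, hs⟩ := of_walk hw p
  obtain ⟨x, hx, hx2⟩ := h4 Q (by omega)
  exact ⟨x, hx, hs x hx2⟩

theorem hit_del {G : SimpleGraph V} {d k : ℕ} {v w x : V} (hv : x ≠ v) (hw : x ≠ w)
    (h : Hit (del G x) d v w k) : Hit G d v w (k + 1) := by
  classical
  obtain ⟨S, h1, h2, h3, h4⟩ := h
  refine ⟨insert x S, (Finset.card_insert_le _ _).trans (by omega), ?_, ?_, ?_⟩
  · simp only [Finset.mem_insert, not_or]; exact ⟨hv.symm, h2⟩
  · simp only [Finset.mem_insert, not_or]; exact ⟨hw.symm, h3⟩
  · intro p hp
    by_cases hx : x ∈ p.support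
    · exact ⟨x, by simp, hx⟩
    · obtain ⟨q, hq1, hq2⟩ := to_del p hx
      obtain ⟨z, hz, hz2⟩ := h4 q (by omega)
      exact ⟨z, by simp [hz], by rw [← hq2]; exact hz2⟩

/-- geodesics are pinned by a fan at level one -/
theorem fan_one {G : SimpleGraph V} {d l : ℕ} {v w h : V} (hN : NoTwo G d v w)
    (hgeo : ∀ q : G.Walk v w, l ≤ q.length) (hF : Fan G v w d 1 h)
    (P : G.Walk v w) (hP : P.length = l) : h ∈ P.support := by
  by_contra hcon
  obtain ⟨D, R1, R2, hD, hDg, hR1, hR2, hl1, hl2, hRR, hf1, hf2⟩ := hF
  have hlow : ∀ x, x ∈ D.support → x = v ∨ x = h := by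
    intro x hx
    obtain ⟨a, b, hab⟩ := split D hx
    have h1 := congrArg Walk.length hab
    simp only [Walk.length_append] at h1
    by_cases ha : a.length = 0
    · left; exact (eq_of_length_zero a ha).symm
    · right; exact eq_of_length_zero b (by omega)
  have hvR : ∀ (R : G.Walk h w), (∀ x, x ∈ R.support → x ≠ h → ∀ q : G.Walk v x, 1 < q.length) →
      ∀ x, x ∈ R.support → x ∈ D.support → x = h := by
    intro R hf x hx hxD
    rcases hlow x hxD with rfl | rfl
    · by_contra hne
      have := hf x hx hne .nil
      simp at this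
    · rfl
  have hlen : l ≤ d := by
    have := hgeo (D.append R1)
    simp only [Walk.length_append] at this
    omega
  refine crossing hN D R1 R2 P hR1 hR2 (by omega) (by omega) (by omega) hRR (hvR R1 hf1)
    (hvR R2 hf2) ?_ ?_ ?_ ?_
  · intro x hx hxD
    rcases hlow x hxD with rfl | rfl
    · rfl
    · exact absurd hx hcon
  · rintro rfl
    have := hDg .nil
    simp at this
  · intro x a b hab a' b' _ _ _
    have := hgeo ((D.append a').append b)
    have h2 := congrArg Walk.length hab
    simp only [Walk.length_append] at this h2
    omega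
  · intro x a b hab a' b' _ _ _
    have := hgeo ((D.append a').append b)
    have h2 := congrArg Walk.length hab
    simp only [Walk.length_append] at this h2
    omega

end Pool.Agent.H23.Chung
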