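import Mathlib
import Pool.Agent.H23.Chung.Main

set_option autoImplicit false

namespace Pool.Agent.H23.Chung

open SimpleGraph

variable {V : Type*}

theorem geo_pos {G : SimpleGraph V} {l : ℕ} {v w x : V} (hgeo : ∀ q : G.Walk v w, l ≤ q.length)
    {P : G.Walk v w} (hP : P.length = l) {a : G.Walk v x} {b : G.Walk x w}
    (hab : P = a.append b) (c : G.Walk v x) : a.length ≤ c.length := by
  have := hgeo (c.append b)
  have h2 := congrArg Walk.length hab
  simp only [Walk.length_append] at this h2
  omega

theorem fan_disj {G : SimpleGraph V} {j : ℕ} {v w y : V} (D : G.Walk v y) (R : G.Walk y w)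
    (hD : D.length = j) (hf : ∀ x, x ∈ R.support → x ≠ y → ∀ q : G.Walk v x, j < q.length) :
    ∀ x, x ∈ R.support → x ∈ D.support → x = y := by
  intro x hx hxD
  by_contra hne
  obtain ⟨a, b, hab⟩ := split D hxD
  have h1 := congrArg Walk.length hab
  have h2 := hf x hx hne a
  simp only [Walk.length_append] at h1
  omega

theorem fan_two {G : SimpleGraph V} {d l j : ℕ} {v w h g : V} (hN : NoTwo G d v w)
    (hgeo : ∀ q : G.Walk v w, l ≤ q.length) (hvh : G.Adj v h)
    (hall : ∀ P : G.Walk v w, P.length = l → h ∈ P.support)
    (hj1 : 1 ≤ j) (hj3 : j ≤ 3) (hF : Fan (del G h) v w d j g)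
    (P : G.Walk v w) (hP : P.length = l) (hPd : l ≤ d) :
    j = 3 ∧ ∃ (a : G.Walk v g) (b : G.Walk g w), P = a.append b ∧ a.length = 2 := by
  obtain ⟨D, R1, R2, hD, hDg, hR1, hR2, hl1, hl2, hRR, hf1, hf2⟩ := hF
  have hhD : h ∉ D.support := not_mem_of_del D hvh.ne
  have hgh : g ≠ h := fun e => hhD (e ▸ D.end_mem_support)
  have hgv : g ≠ v := by
    rintro rfl
    have := hDg .nil
    simp at this
    omega
  have claim : ∀ x, x ∈ P.support → x ∈ D.support → x ≠ v →
      x = g ∧ j = 3 ∧ ∃ (a : G.Walk v x) (b : G.Walk x w), P = a.append b ∧ a.length = 2 := by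
    intro x hx hxD hxv
    obtain ⟨a, b, hab⟩ := split P hx
    obtain ⟨a', b', hab'⟩ := split D hxD
    have hlab := congrArg Walk.length hab
    have hlab' := congrArg Walk.length hab'
    simp only [Walk.length_append] at hlab hlab'
    have hxh : x ≠ h := fun e => hhD (e ▸ hxD)
    have ha' : h ∉ a'.support := not_mem_of_del a' hvh.ne
    have pa := pos_of_ne a (Ne.symm hxv)
    have hb : h ∉ b.support := by
      intro hb
      obtain ⟨b1, b2, hb12⟩ := split b hb
      have h1 := congrArg Walk.length hb12
      have h2 := hgeo (.cons hvh b2)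
      simp only [Walk.length_append, Walk.length_cons] at h1 h2
      exact hxh (eq_of_length_zero b1 (by omega))
    have ha2 : 2 ≤ a.length := by
      have hh := hall P hP
      rw [hab, Walk.mem_support_append_iff] at hh
      rcases hh with hh | hh
      · obtain ⟨a1, a2, ha12⟩ := split a hh
        have h1 := congrArg Walk.length ha12
        have h2 := pos_of_ne a1 hvh.ne
        have h3 := pos_of_ne a2 (Ne.symm hxh)
        simp only [Walk.length_append] at h1
        omega
      · exact absurd hh hb
    have hle : l ≤ ((a'.mapLe (del_le G h)).append b).length := hgeo _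
    have hne : ((a'.mapLe (del_le G h)).append b).length ≠ l := by
      intro e
      have := hall _ e
      rw [Walk.mem_support_append_iff] at this
      rcases this with h1 | h1
      · simp only [Walk.support_mapLe_eq_support] at h1
        exact ha' h1
      · exact hb h1
    simp only [Walk.length_append, Walk.length_map] at hle hne
    have hb0 : b'.length = 0 := by omega
    refine ⟨eq_of_length_zero b' hb0, by omega, a, b, hab, by omega⟩
  by_cases hgP : g ∈ P.support
  · obtain ⟨_, h2, h3⟩ := claim g hgP D.end_mem_support hgv
    exact ⟨h2, h3⟩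
  · exfalso
    refine crossing hN (D.mapLe (del_le G h)) (R1.mapLe (del_le G h)) (R2.mapLe (del_le G h)) P
      (hR1.mapLe _) (hR2.mapLe _) ?_ ?_ (by omega) ?_ ?_ ?_ ?_ hgv ?_ ?_
    · simp only [Walk.length_map]; omega
    · simp only [Walk.length_map]; omega
    · simpa only [Walk.support_mapLe_eq_support] using hRR
    · simpa only [Walk.support_mapLe_eq_support] using fan_disj D R1 hD hf1
    · simpa only [Walk.support_mapLe_eq_support] using fan_disj D R2 hD hf2
    · intro x hx hxD
      simp only [Walk.support_mapLe_eq_support] at hxD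
      by_contra hxv
      exact hgP ((claim x hx hxD hxv).1 ▸ hx)
    · intro x a b hab a' b' _ _ _
      have := geo_pos hgeo hP hab ((D.mapLe (del_le G h)).append a')
      simpa only [Walk.length_append] using this
    · intro x a b hab a' b' _ _ _
      have := geo_pos hgeo hP hab ((D.mapLe (del_le G h)).append a')
      simpa only [Walk.length_append] using this

theorem no_fan_three {G : SimpleGraph V} {d l j : ℕ} {v w h g y : V} (hN : NoTwo G d v w)
    (hgeo : ∀ q : G.Walk v w, l ≤ q.length)
    (hvh : G.Adj v h) (hhg : G.Adj h g) (b : G.Walk g w) (hb : b.length + 2 = l)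
    (hallg : ∀ P : G.Walk v w, P.length = l → g ∈ P.support)
    (D' : (del G h).Walk v g) (hD' : D'.length = 3)
    (hD'g : ∀ q : (del G h).Walk v g, 3 ≤ q.length)
    (hld : l + 1 ≤ d)
    (hj1 : 1 ≤ j) (hj3 : j ≤ 3) (hF : Fan (del G g) v w d j y) : False := by
  obtain ⟨D, R1, R2, hD, hDg, hR1, hR2, hl1, hl2, hRR, hf1, hf2⟩ := hF
  have hg2 : ∀ q : G.Walk v g, 2 ≤ q.length := by
    intro q
    have := hgeo (q.append b)
    simp only [Walk.length_append] at this
    omega
  have hvg : v ≠ g := by
    rintro rfl
    have := hg2 .nil
    simp at this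
  have hyv : y ≠ v := by
    rintro rfl
    have := hDg .nil
    simp at this
    omega
  have hgD : g ∉ D.support := not_mem_of_del D hvg
  have hyg : y ≠ g := fun e => hgD (e ▸ D.end_mem_support)
  have hgc : ∀ (c : G.Walk g w), l ≤ c.length + 2 := by
    intro c
    have := hgeo (.cons hvh (.cons hhg c))
    simp only [Walk.length_cons] at this
    omega
  -- level lemma along b
  have Lb : ∀ x (b1 : G.Walk g x) (b2 : G.Walk x w), b = b1.append b2 → x ≠ g →
      ∀ c : G.Walk v x, g ∉ c.support → 3 + b1.length ≤ c.length := by
    intro x b1 b2 hb12 hxg c hc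
    by_contra hlt
    have h1 := congrArg Walk.length hb12
    have h2 := hgeo (c.append b2)
    simp only [Walk.length_append] at h1 h2
    have h3 : (c.append b2).length = l := by
      simp only [Walk.length_append]; omega
    have h4 := hallg _ h3
    rw [Walk.mem_support_append_iff] at h4
    rcases h4 with h4 | h4
    · exact hc h4
    · obtain ⟨c1, c2, hc12⟩ := split b2 h4
      have h5 := congrArg Walk.length hc12
      have h6 := hgc c2
      simp only [Walk.length_append] at h5
      exact hxg (eq_of_length_zero b1 (by omega)).symm
  have Lb' : ∀ (D0 : (del G g).Walk v y), D0.length = j → ∀ x, x ∈ b.support →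
      x ∈ D0.support → False := by
    intro D0 hD0 x hxb hxD
    have hxg : x ≠ g := fun e => not_mem_of_del D0 hvg (e ▸ hxD)
    obtain ⟨b1, b2, hb12⟩ := split b hxb
    obtain ⟨a1, a2, ha12⟩ := split D0 hxD
    have h1 := congrArg Walk.length ha12
    have h2 := Lb x b1 b2 hb12 hxg (a1.mapLe (del_le G g)) (by
      simp only [Walk.support_mapLe_eq_support]; exact not_mem_of_del a1 hvg)
    have h3 := pos_of_ne b1 (Ne.symm hxg)
    simp only [Walk.length_append, Walk.length_map] at h1 h2
    omega
  have hle := del_le G g
  by_cases hB : ∃ D0 : (del G g).Walk v y, D0.length = j ∧ h ∉ D0.support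
  · obtain ⟨D0, hD0, hhD0⟩ := hB
    have hP : (Walk.cons hvh (Walk.cons hhg b)).length = l := by
      simp only [Walk.length_cons]; omega
    refine crossing hN (D0.mapLe hle) (R1.mapLe hle) (R2.mapLe hle)
      (.cons hvh (.cons hhg b)) (hR1.mapLe _) (hR2.mapLe _) ?_ ?_ (by omega) ?_ ?_ ?_ ?_ hyv ?_ ?_
    · simp only [Walk.length_map]; omega
    · simp only [Walk.length_map]; omega
    · simpa only [Walk.support_mapLe_eq_support] using hRR
    · simpa only [Walk.support_mapLe_eq_support] using fan_disj D0 R1 hD0 hf1
    · simpa only [Walk.support_mapLe_eq_support] using fan_disj D0 R2 hD0 hf2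
    · intro x hx hxD
      simp only [Walk.support_mapLe_eq_support] at hxD
      simp only [Walk.support_cons, List.mem_cons] at hx
      rcases hx with hx | hx | hx
      · exact hx
      · exact absurd (hx ▸ hxD) hhD0
      · exact (Lb' D0 hD0 x hx hxD).elim
    · intro x a b hab a' b' _ _ _
      have := geo_pos hgeo hP hab ((D0.mapLe hle).append a')
      simpa only [Walk.length_append] using this
    · intro x a b hab a' b' _ _ _
      have := geo_pos hgeo hP hab ((D0.mapLe hle).append a')
      simpa only [Walk.length_append] using this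
  · push Not at hB
    have hhD' : h ∉ D'.support := not_mem_of_del D' hvh.ne
    have hPlen : ((D'.mapLe (del_le G h)).append b).length = l + 1 := by
      simp only [Walk.length_append, Walk.length_map]; omega
    -- the plus path meets D only in v
    have hPD : ∀ x, x ∈ ((D'.mapLe (del_le G h)).append b).support → x ∈ D.support → x = v := by
      intro x hx hxD
      by_contra hxv
      rw [Walk.mem_support_append_iff] at hx
      simp only [Walk.support_mapLe_eq_support] at hx
      rcases hx with hx | hx
      · have hxg : x ≠ g := fun e => hgD (e ▸ hxD)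
        have hxh : x ≠ h := fun e => hhD' (e ▸ hx)
        obtain ⟨a1, b1, hab1⟩ := split D' hx
        obtain ⟨a2, b2, hab2⟩ := split D hxD
        have h1 := congrArg Walk.length hab1
        have h2 := congrArg Walk.length hab2
        simp only [Walk.length_append] at h1 h2
        have p1 := pos_of_ne a1 (Ne.symm hxv)
        have p2 := pos_of_ne a2 (Ne.symm hxv)
        have p3 := pos_of_ne b1 hxg
        have hga1 : g ∉ a1.support := by
          intro hga
          obtain ⟨c1, c2, hc12⟩ := split a1 hga
          have h5 := congrArg Walk.length hc12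
          have h6 := hD'g c1
          simp only [Walk.length_append] at h5
          omega
        have hha1 : h ∉ a1.support := not_mem_of_del a1 hvh.ne
        obtain ⟨a3, ha3l, ha3s⟩ := to_del (G := G) (x := g) (a1.mapLe (del_le G h))
          (by simpa only [Walk.support_mapLe_eq_support] using hga1)
        simp only [Walk.length_map, Walk.support_mapLe_eq_support] at ha3l ha3s
        have h7 := hDg (a3.append b2)
        simp only [Walk.length_append] at h7
        have hhb2 : h ∉ b2.support := by
          intro hh
          obtain ⟨c1, c2, hc12⟩ := split b2 hh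
          have h5 := congrArg Walk.length hc12
          have hadj : (del G g).Adj v h := ⟨hvh, hvg, hhg.ne⟩
          have h6 := hDg (.cons hadj c2)
          simp only [Walk.length_append, Walk.length_cons] at h5 h6
          exact hxh (eq_of_length_zero c1 (by omega))
        have hlt : a2.length < a1.length := by
          by_contra hge
          have h8 := hB (a3.append b2) (by simp only [Walk.length_append]; omega)
          rw [Walk.mem_support_append_iff, ha3s] at h8
          rcases h8 with h8 | h8
          · exact hha1 h8
          · exact hhb2 h8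
        have h9 : a2.length = 1 := by omega
        have hadj : (del G g).Adj v x := Walk.adj_of_length_eq_one h9
        have hadj' : (del G h).Adj v x := ⟨hadj.1, hvh.ne, hxh⟩
        have h10 := hD'g (.cons hadj' b1)
        simp only [Walk.length_cons] at h10
        omega
      · exact Lb' D hD x hx hxD
    have hpos : ∀ R : (del G g).Walk y w, ∀ x (a : G.Walk v x) (b0 : G.Walk x w),
        (D'.mapLe (del_le G h)).append b = a.append b0 →
        ∀ (a' : G.Walk y x) (b' : G.Walk x w), R.mapLe hle = a'.append b' → x ≠ y → x ≠ w →
          a.length ≤ (D.mapLe hle).length + a'.length := by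
      intro R x a b0 hab a' b' hR hxy _
      by_contra hlt
      have h1 := congrArg Walk.length hab
      rw [hPlen] at h1
      simp only [Walk.length_append, Walk.length_map] at h1 hlt
      have h2 := hgeo (((D.mapLe hle).append a').append b0)
      have h3 : (((D.mapLe hle).append a').append b0).length = l := by
        simp only [Walk.length_append, Walk.length_map] at h2 ⊢
        omega
      have h4 := hallg _ h3
      have hgR : g ∉ R.support := not_mem_of_del R hyg
      have hga' : g ∉ a'.support := by
        intro h5
        apply hgR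
        have : g ∈ (R.mapLe hle).support := by
          rw [hR, Walk.mem_support_append_iff]; exact Or.inl h5
        simpa only [Walk.support_mapLe_eq_support] using this
      rw [Walk.mem_support_append_iff, Walk.mem_support_append_iff,
        Walk.support_mapLe_eq_support] at h4
      rcases h4 with (h4 | h4) | h4
      · exact hgD h4
      · exact hga' h4
      · obtain ⟨c1, c2, hc12⟩ := split b0 h4
        have h5 := congrArg Walk.length hc12
        have h6 := hgc c2
        have hxg : x ≠ g := by
          rintro rfl
          apply hgR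
          have : x ∈ (R.mapLe hle).support := by
            rw [hR, Walk.mem_support_append_iff]; exact Or.inl a'.end_mem_support
          simpa only [Walk.support_mapLe_eq_support] using this
        have h7 := pos_of_ne c1 hxg
        have h8 := pos_of_ne a' (Ne.symm hxy)
        simp only [Walk.length_append] at h5
        omega
    refine crossing hN (D.mapLe hle) (R1.mapLe hle) (R2.mapLe hle)
      ((D'.mapLe (del_le G h)).append b) (hR1.mapLe _) (hR2.mapLe _) ?_ ?_ (by omega)
      ?_ ?_ ?_ ?_ hyv (hpos R1) (hpos R2)
    · simp only [Walk.length_map]; omega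
    · simp only [Walk.length_map]; omega
    · simpa only [Walk.support_mapLe_eq_support] using hRR
    · simpa only [Walk.support_mapLe_eq_support] using fan_disj D R1 hD hf1
    · simpa only [Walk.support_mapLe_eq_support] using fan_disj D R2 hD hf2
    · intro x hx hxD
      simp only [Walk.support_mapLe_eq_support] at hxD
      exact hPD x hx hxD

theorem main_case {G : SimpleGraph V} {d l : ℕ} {v w : V} (hN : NoTwo G d v w) (hl : 4 ≤ l)
    (hgeo : ∀ q : G.Walk v w, l ≤ q.length) (P : G.Walk v w) (hP : P.length = l) (hld : l ≤ d) :
    (∀ y, ¬ Fan G v w d 1 y) ∨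
    (∃ x, x ≠ v ∧ x ≠ w ∧ Far (del G x) v 5 w ∧
      ∀ j y, 1 ≤ j → j ≤ 3 → ¬ Fan (del G x) v w d j y) := by
  by_cases hF1 : ∀ y, ¬ Fan G v w d 1 y
  · exact Or.inl hF1
  right
  push Not at hF1
  obtain ⟨h, hF⟩ := hF1
  have hall : ∀ P : G.Walk v w, P.length = l → h ∈ P.support := fun P hP => fan_one hN hgeo hF P hP
  obtain ⟨D, R1, R2, hD, hDg, hR1, hR2, hl1, hl2, hRR, hf1, hf2⟩ := hF
  have hvh : G.Adj v h := Walk.adj_of_length_eq_one hD
  have farx : ∀ x, x ≠ v → (∀ P : G.Walk v w, P.length = l → x ∈ P.support) →
      Far (del G x) v 5 w := by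
    intro x hx hxall q
    have h1 := hgeo (q.mapLe (del_le G x))
    have h2 : (q.mapLe (del_le G x)).length ≠ l := by
      intro e
      have := hxall _ e
      simp only [Walk.support_mapLe_eq_support] at this
      exact not_mem_of_del q hx.symm this
    simp only [Walk.length_map] at h1 h2
    omega
  have hhw : h ≠ w := by
    rintro rfl
    have := hgeo D
    omega
  by_cases hF3 : ∀ j y, 1 ≤ j → j ≤ 3 → ¬ Fan (del G h) v w d j y
  · exact ⟨h, hvh.ne.symm, hhw, farx h hvh.ne.symm hall, hF3⟩
  push Not at hF3
  obtain ⟨j, g, hj1, hj3, hFg⟩ := hF3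
  have hg := fun (P : G.Walk v w) (hP : P.length = l) =>
    fan_two hN hgeo hvh hall hj1 hj3 hFg P hP hld
  have hj : j = 3 := (hg P hP).1
  subst hj
  have hallg : ∀ P : G.Walk v w, P.length = l → g ∈ P.support := by
    intro P hP
    obtain ⟨_, a, b, hab, _⟩ := hg P hP
    rw [hab, Walk.mem_support_append_iff]
    exact Or.inl a.end_mem_support
  obtain ⟨D', S1, S2, hD', hD'g, -, -, -, -, -, -, -⟩ := hFg
  have hgh : g ≠ h := by
    rintro rfl
    exact not_mem_of_del D' hvh.ne D'.end_mem_support
  obtain ⟨_, a, b, hab, ha2⟩ := hg P hP
  have hlab := congrArg Walk.length hab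
  simp only [Walk.length_append] at hlab
  have hg2 : ∀ q : G.Walk v g, 2 ≤ q.length := by
    intro q
    have := hgeo (q.append b)
    simp only [Walk.length_append] at this
    omega
  have hgv : g ≠ v := by
    rintro rfl
    have := hg2 .nil
    simp at this
  have hgw : g ≠ w := by
    rintro rfl
    have := hgeo a
    omega
  -- h adjacent to g
  have hhg : G.Adj h g := by
    have hh := hall P hP
    rw [hab, Walk.mem_support_append_iff] at hh
    rcases hh with hh | hh
    · obtain ⟨a1, a2, ha12⟩ := split a hh
      have h1 := congrArg Walk.length ha12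
      have p1 := pos_of_ne a1 hvh.ne
      have p2 := pos_of_ne a2 hgh.symm
      simp only [Walk.length_append] at h1
      exact Walk.adj_of_length_eq_one (p := a2) (by omega)
    · exfalso
      obtain ⟨b1, b2, hb12⟩ := split b hh
      have h1 := congrArg Walk.length hb12
      have h2 := hgeo (.cons hvh b2)
      simp only [Walk.length_append, Walk.length_cons] at h1 h2
      omega
  -- l + 1 ≤ d
  have hld1 : l + 1 ≤ d := by
    by_contra hlt
    have e1 : (D.append R1).length = l := by
      have := hgeo (D.append R1)
      simp only [Walk.length_append] at this ⊢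
      omega
    have e2 : (D.append R2).length = l := by
      have := hgeo (D.append R2)
      simp only [Walk.length_append] at this ⊢
      omega
    have hgD : g ∉ D.support := by
      intro hgD
      obtain ⟨a1, a2, ha12⟩ := split D hgD
      have h1 := congrArg Walk.length ha12
      have h2 := hg2 a1
      simp only [Walk.length_append] at h1
      omega
    have g1 := hallg _ e1
    have g2 := hallg _ e2
    rw [Walk.mem_support_append_iff] at g1 g2
    rcases g1 with g1 | g1
    · exact hgD g1
    · rcases g2 with g2 | g2
      · exact hgD g2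
      · rcases hRR g g1 g2 with e | e
        · exact hgh e
        · exact hgw e
  refine ⟨g, hgv, hgw, farx g hgv hallg, ?_⟩
  intro j y hj1' hj3' hFy
  exact no_fan_three hN hgeo hvh hhg b (by omega) hallg D' hD' hD'g hld1 hj1' hj3' hFy

/-- distance two -/
theorem hit_two {G : SimpleGraph V} {d : ℕ} {v w : V} (hN : NoTwo G d v w)
    (P : G.Walk v w) (hP : P.length = 2) (hd : 2 ≤ d) : Hit G d v w 1 := by
  classical
  cases P with
  | nil => simp at hP
  | @cons _ p _ h1 P' =>
    cases P' with
    | nil => simp at hP
    | @cons _ q _ h2 P'' =>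
      cases P'' with
      | cons _ _ => simp at hP
      | nil =>
        refine ⟨{p}, by simp, by simpa using h1.ne, by simpa using h2.ne.symm, ?_⟩
        intro q hq
        obtain ⟨x, hx1, hx2, hx3, hx4⟩ := hN (.cons h1 (.cons h2 .nil)) q (by simpa using hd) hq
        simp at hx3
        rcases hx3 with h | h | h
        · exact absurd h hx1
        · exact ⟨p, by simp, h ▸ hx4⟩
        · exact absurd h hx2

/-- distance three, `d ≥ 5` -/
theorem hit_three {G : SimpleGraph V} {d : ℕ} {v w p1 p2 : V} (hN : NoTwo G d v w)
    (h1 : G.Adj v p1) (h2 : G.Adj p1 p2) (h3 : G.Adj p2 w) (hd : 3 ≤ d)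
    (hv : p2 ≠ v) (hw : p1 ≠ w) : Hit G d v w 2 := by
  classical
  refine ⟨{p1, p2}, Finset.card_le_two, ?_, ?_, ?_⟩
  · simp only [Finset.mem_insert, Finset.mem_singleton, not_or]
    exact ⟨h1.ne, hv.symm⟩
  · simp only [Finset.mem_insert, Finset.mem_singleton, not_or]
    exact ⟨hw.symm, h3.ne.symm⟩
  · intro q hq
    obtain ⟨x, hx1, hx2, hx3, hx4⟩ := hN (.cons h1 (.cons h2 (.cons h3 .nil))) q
      (by simpa using hd) hq
    simp at hx3
    rcases hx3 with h | h | h | h
    · exact absurd h hx1
    · exact ⟨p1, by simp, h ▸ hx4⟩
    · exact ⟨p2, by simp, h ▸ hx4⟩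
    · exact absurd h hx2

/-- distance three, `d ≤ 4` -/
theorem hit_three' {G : SimpleGraph V} {d : ℕ} {v w p1 p2 : V} (hN : NoTwo G d v w)
    (h1 : G.Adj v p1) (h2 : G.Adj p1 p2) (h3 : G.Adj p2 w) (hd : 3 ≤ d) (hd4 : d ≤ 4)
    (hv : p2 ≠ v) (hw : p1 ≠ w) : Hit G d v w 1 := by
  classical
  by_contra hcon
  have hno : ∀ x, x ≠ v → x ≠ w → ∃ q : G.Walk v w, q.length ≤ d ∧ x ∉ q.support ∧ q.IsPath := by
    intro x hxv hxw
    by_contra hc
    push Not at hc
    apply hcon
    refine ⟨{x}, by simp, by simpa using hxv.symm, by simpa using hxw.symm, ?_⟩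
    intro q hq
    refine ⟨x, by simp, ?_⟩
    by_contra hxq
    exact hc q.bypass (q.length_bypass_le_length.trans hq)
      (fun h => hxq (q.support_bypass_subset_support h)) q.bypass_isPath
  have hmeet : ∀ q : G.Walk v w, q.length ≤ d → p1 ∈ q.support ∨ p2 ∈ q.support := by
    intro q hq
    obtain ⟨x, hx1, hx2, hx3, hx4⟩ := hN (.cons h1 (.cons h2 (.cons h3 .nil))) q
      (by simpa using hd) hq
    simp at hx3
    rcases hx3 with h | h | h | h
    · exact absurd h hx1
    · exact Or.inl (h ▸ hx4)
    · exact Or.inr (h ▸ hx4)
    · exact absurd h hx2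
  obtain ⟨A, hA, hA1, hAp⟩ := hno p1 h1.ne.symm hw
  obtain ⟨B, hB, hB2, hBp⟩ := hno p2 hv h3.ne
  have hA2 : p2 ∈ A.support := (hmeet A hA).resolve_left hA1
  have hB1 : p1 ∈ B.support := (hmeet B hB).resolve_right hB2
  obtain ⟨a, a', haa⟩ := split A hA2
  obtain ⟨b, b', hbb⟩ := split B hB1
  have la := congrArg Walk.length haa
  have lb := congrArg Walk.length hbb
  simp only [Walk.length_append] at la lb
  have pa' := pos_of_ne a' h3.ne
  have pb := pos_of_ne b h1.ne
  obtain ⟨x, hx1, hx2, hx3, hx4⟩ := hN (a.append (.cons h3 .nil)) (.cons h1 b')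
    (by simp only [Walk.length_append, Walk.length_cons, Walk.length_nil]; omega)
    (by simp only [Walk.length_cons]; omega)
  have hxa : x ∈ a.support := by
    rw [Walk.mem_support_append_iff] at hx3
    rcases hx3 with h | h
    · exact h
    · simp at h
      rcases h with h | h
      · rw [h]; exact a.end_mem_support
      · exact absurd h hx2
  have hxb : x ∈ b'.support := by
    simp only [Walk.support_cons, List.mem_cons] at hx4
    exact hx4.resolve_left hx1
  have hxA : x ∈ A.support := by rw [haa, Walk.mem_support_append_iff]; exact Or.inl hxa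
  have hxB : x ∈ B.support := by rw [hbb, Walk.mem_support_append_iff]; exact Or.inr hxb
  have hxp1 : x ≠ p1 := fun e => hA1 (e ▸ hxA)
  have hxp2 : x ≠ p2 := fun e => hB2 (e ▸ hxB)
  obtain ⟨c1, c2, hc⟩ := split a hxa
  obtain ⟨e1, e2, he⟩ := split b' hxb
  have lc := congrArg Walk.length hc
  have le := congrArg Walk.length he
  simp only [Walk.length_append] at lc le
  have pc := pos_of_ne c2 hxp2
  have pe := pos_of_ne e1 (Ne.symm hxp1)
  have hlen : (c1.append e2).length ≤ d := by
    simp only [Walk.length_append]; omega
  have hcA : ∀ z, z ∈ c1.support → z ∈ A.support := by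
    intro z hz
    rw [haa, hc, Walk.mem_support_append_iff, Walk.mem_support_append_iff]
    exact Or.inl (Or.inl hz)
  have heB : ∀ z, z ∈ e2.support → z ∈ B.support := by
    intro z hz
    rw [hbb, he, Walk.mem_support_append_iff, Walk.mem_support_append_iff]
    exact Or.inr (Or.inr hz)
  rcases hmeet _ hlen with h | h
  · rw [Walk.mem_support_append_iff] at h
    rcases h with h | h
    · exact hA1 (hcA _ h)
    · -- p1 in e2, but B is a path
      rw [hbb, he] at hBp
      have hnd := (Walk.isPath_def _).1 hBp
      rw [Walk.support_append] at hnd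
      have hdis := (List.nodup_append.1 hnd).2.2
      have hne : b.support ≠ [] := by simp
      have q1 : p1 ∈ b.support := b.end_mem_support
      have q2 : p1 ∈ (e1.append e2).support.tail := by
        rw [Walk.support_append, List.tail_append_of_ne_nil (by simp)]
        apply List.mem_append_right
        cases e2 with
        | nil =>
          simp at h
          exact absurd h.symm hxp1
        | cons hb b'' =>
          simp only [Walk.support_cons, List.mem_cons] at h
          rcases h with h | h
          · exact absurd h.symm hxp1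
          · simpa using h
      exact hdis _ q1 _ q2 rfl
  · rw [Walk.mem_support_append_iff] at h
    rcases h with h | h
    · -- p2 in c1, but A is a path
      rw [haa, hc] at hAp
      have hnd := (Walk.isPath_def _).1 hAp
      rw [← Walk.append_assoc, Walk.support_append] at hnd
      have hdis := (List.nodup_append.1 hnd).2.2
      have q2 : p2 ∈ (c2.append a').support.tail := by
        rw [Walk.support_append, List.tail_append_of_ne_nil (by simp)]
        apply List.mem_append_left
        cases c2 with
        | nil => exact absurd rfl hxp2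
        | cons hb b'' => simp
      exact hdis _ h _ q2 rfl
    · exact hB2 (heB _ h)

theorem hit_mono {G : SimpleGraph V} {d k k' : ℕ} {v w : V} (h : Hit G d v w k) (hk : k ≤ k') :
    Hit G d v w k' := by
  obtain ⟨S, h1, h2⟩ := h
  exact ⟨S, h1.trans hk, h2⟩

/-- the upper bound, walk version -/
theorem upper (v w : V) : ∀ (d : ℕ) (G : SimpleGraph V), NoTwo G d v w →
    Hit G d v w ((d + 1) / 3) := by
  intro d
  induction d using Nat.strong_induction_on with
  | _ d ih =>
  intro G hN
  classical
  by_cases hex : ∃ q : G.Walk v w, q.length ≤ d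
  swap
  · push Not at hex
    refine ⟨∅, by simp, by simp, by simp, ?_⟩
    intro p hp
    have := hex p
    omega
  obtain ⟨q0, hq0⟩ := hex
  have hex2 : ∃ l, ∃ P : G.Walk v w, P.length = l := ⟨_, q0, rfl⟩
  obtain ⟨P, hP⟩ := Nat.find_spec hex2
  set l := Nat.find hex2 with hl
  have hgeo : ∀ q : G.Walk v w, l ≤ q.length := fun q => Nat.find_min' hex2 ⟨q, rfl⟩
  have hld : l ≤ d := (hgeo q0).trans hq0
  have hvw := hN.ne
  have hl2 : 2 ≤ l := by
    by_contra hlt
    have h0 : l ≠ 0 := by
      intro h0
      exact hvw (eq_of_length_zero P (by omega))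
    have h1 : P.length = 1 := by omega
    have hadj : G.Adj v w := Walk.adj_of_length_eq_one h1
    obtain ⟨x, hx1, hx2, hx3, _⟩ := hN (.cons hadj .nil) (.cons hadj .nil) (by simp; omega)
      (by simp; omega)
    simp at hx3
    rcases hx3 with h | h
    · exact hx1 h
    · exact hx2 h
  rcases Nat.lt_or_ge l 4 with h4 | h4
  · rcases Nat.lt_or_ge l 3 with h3 | h3
    · have h2 : l = 2 := by omega
      exact hit_mono (hit_two hN P (by omega) (by omega)) (by omega)
    · have h3 : l = 3 := by omega
      rw [h3] at hP
      clear_value l
      clear hl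
      cases P with
      | nil => simp at hP
      | @cons _ p1 _ e1 P' =>
        cases P' with
        | nil => simp at hP
        | @cons _ p2 _ e2 P'' =>
          cases P'' with
          | nil => simp at hP
          | @cons _ p3 _ e3 P3 =>
            cases P3 with
            | cons _ _ => simp at hP
            | nil =>
              have hp2v : p2 ≠ v := by
                rintro rfl
                have := hgeo (.cons e3 .nil)
                simp at this
                omega
              have hp1w : p1 ≠ w := by
                rintro rfl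
                have := hgeo (.cons e1 .nil)
                simp at this
                omega
              rcases Nat.lt_or_ge d 5 with h5 | h5
              · exact hit_mono (hit_three' hN e1 e2 e3 (by omega) (by omega) hp2v hp1w) (by omega)
              · exact hit_mono (hit_three hN e1 e2 e3 (by omega) hp2v hp1w) (by omega)
  · rcases main_case hN h4 hgeo P hP hld with h | ⟨x, hxv, hxw, hfar, hnf⟩
    · obtain ⟨d', rfl⟩ : ∃ d', d = d' + 1 := ⟨d - 1, by omega⟩
      have hc : NoTwo (con G v 1) d' v w := by
        apply noTwo_con hN
        · intro q; have := hgeo q; omega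
        · intro j y hj1 hj2
          have : j = 1 := by omega
          subst this
          exact h y
      have := ih d' (by omega) _ hc
      exact hit_mono (hit_con (fun q => by have := hgeo q; omega) this) (by omega)
    · obtain ⟨d', rfl⟩ : ∃ d', d = d' + 3 := ⟨d - 3, by omega⟩
      have hN' : NoTwo (del G x) (d' + 3) v w := hN.mono (del_le G x)
      have hc : NoTwo (con (del G x) v 3) d' v w := by
        apply noTwo_con hN'
        · exact hfar
        · exact hnf
      have := ih d' (by omega) _ hc
      have h2 := hit_con (fun q => by have := hfar q; omega) this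
      exact hit_mono (hit_del hxv hxw h2) (by omega)

end Pool.Agent.H23.Chung
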